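import Mathlib
import Pool.Agent.R849.FK.Gh
import Pool.Agent.R849.FQ.Deg

set_option autoImplicit false

/-! # The height of the Gauss map, constant coefficients -/

namespace Pool.Agent.R849.FS

open FF MvPolynomial Pool.Agent.W603.LV Pool.Agent.W603.PV Pool.Agent.R849.FK
open Pool.Agent.Y731.FG (combF hgtP_finset exists_minOrd hgtP_smul hgtP hgtP_nonneg)
open Pool.Agent.Results.MP_70ba79_ag.SparseCurves

/-- the height of a vector of forms -/
theorem forms_height0 {ι : Type} [Fintype ι] {n m : ℕ} (H : ι → MvPolynomial (Fin n) ℂ)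
    (hH : ∀ i, (H i).IsHomogeneous m) {L : Type} [Field L] [Algebra ℂ L] [IsFF ℂ L]
    (x : Fin n → L) (hx : ∃ a, x a ≠ 0) (hHx : ∃ i, aeval x (H i) ≠ 0) :
    hgtP ℂ (fun i => aeval x (H i)) ≤ m * hgtP ℂ x := by
  classical
  obtain ⟨T1, hT1⟩ := exists_supp (k := ℂ) (Finset.univ : Finset (Fin n)) x
  obtain ⟨T2, hT2⟩ := exists_supp (k := ℂ) (Finset.univ : Finset ι) (fun i => aeval x (H i))
  obtain ⟨T, hT⟩ : ∃ T, T = T1 ∪ T2 := ⟨_, rfl⟩
  have h1 : hgtP ℂ x = -∑ P ∈ T, Pool.Agent.Y731.FG.minOrd P x := by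
    refine hgtP_finset hx T fun P hP => ?_
    obtain ⟨a, ha, h⟩ := exists_minOrd P hx
    have := hT1 a (Finset.mem_univ _) P (by rw [h]; exact hP)
    simp [hT, this]
  have h2 : hgtP ℂ (fun i => aeval x (H i)) =
      -∑ P ∈ T, Pool.Agent.Y731.FG.minOrd P (fun i => aeval x (H i)) := by
    refine hgtP_finset hHx T fun P hP => ?_
    obtain ⟨a, ha, h⟩ := exists_minOrd P hHx
    have := hT2 a (Finset.mem_univ _) P (by rw [h]; exact hP)
    simp [hT, this]
  have h5 : ∀ P ∈ T, -Pool.Agent.Y731.FG.minOrd P (fun i => aeval x (H i)) ≤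
      m * (-Pool.Agent.Y731.FG.minOrd P x) := by
    intro P _
    obtain ⟨i, hi, h6⟩ := exists_minOrd P hHx
    rw [← h6]
    obtain ⟨μ, hμ⟩ : ∃ μ, μ = Pool.Agent.Y731.FG.minOrd P x := ⟨_, rfl⟩
    rw [← hμ]
    have h7 : Ge P (m * μ) (aeval x (H i)) := by
      rw [aeval_def, eval₂_eq']
      refine Ge.sum _ _ fun α hα => ?_
      have h8 : Ge P 0 (algebraMap ℂ L ((H i).coeff α)) := Ge.const _
      have h9 := Ge_prod' (P := P) Finset.univ (fun a => x a ^ α a) (fun a => (α a : ℤ) * μ)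
        (fun a _ => Ge.pow (by
          by_cases h : x a = 0
          · exact Or.inl h
          · right
            rw [hμ]
            exact Pool.Agent.Y731.FG.minOrd_le P h) _)
      have h10 : ∑ a, (α a : ℤ) * μ = m * μ := by
        rw [← Finset.sum_mul, ← Nat.cast_sum]
        have h11 : α.degree = m := by
          by_contra hne
          exact (mem_support_iff.1 hα) ((hH i).coeff_eq_zero hne)
        rw [← h11, Finsupp.degree_eq_sum]
      rw [h10] at h9
      have h11 := h8.mul h9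
      rwa [zero_add] at h11
    rcases h7 with h7 | h7
    · exact absurd h7 hi
    · linarith
  rw [h1, h2]
  have h6 := Finset.sum_le_sum h5
  rw [← Finset.mul_sum, Finset.sum_neg_distrib, Finset.sum_neg_distrib] at h6
  exact h6

/-- the degree of the canonical class is at most a multiple of the degree -/
theorem canonical_le {N s g q w m δ : ℕ} (hm : m = N + 1 + s)
    {G : Fin g → MvPolynomial (Fin m) ℂ} {e : Fin g → ℕ}
    (hG : ∀ j, (G j).IsHomogeneous (e j)) (he : ∀ j, e j ≤ δ)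
    {E : Fin q → Fin w → MvPolynomial (Fin m) ℂ} (hsm : SmoothPair s G E)
    {L : Type} [Field L] [Algebra ℂ L] [IsFF ℂ L] (x : Fin m → L)
    (A : Matrix (Fin m) (Fin (N + 1)) L) (hx : x ≠ 0) (hX : OnX G x)
    (hA : IsTangentBasis G x A) :
    canonicalHeight ℂ x A ≤ ((N + 1) * (s * δ) : ℕ) * height ℂ x := by
  classical
  subst hm
  have hx0 : ∃ a, x a ≠ 0 := by
    by_contra hno
    push Not at hno
    exact hx (funext hno)
  obtain ⟨T, hT⟩ := Pool.Agent.Y731.CC.exists_indepK (k := ℂ) (G := G) (Fd := E) (s := s)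
    (fun z hz hzG => by
      obtain ⟨T, J', h⟩ := hsm z hz hzG
      exact ⟨T, J', h⟩) x hx0 hX
  obtain ⟨V, hV⟩ : ∃ V : Fin s → Fin (N + 1 + s) → L,
      V = fun l c => aeval x (pderiv c (G (T l))) := ⟨_, rfl⟩
  have hVi : LinearIndependent L V := by rw [hV]; exact hT
  obtain ⟨J0, hJ0⟩ := exists_cols V hVi
  have hJ0i : Function.Injective J0 := by
    intro a b hab
    by_contra hne
    apply hJ0
    exact Matrix.det_zero_of_column_eq hne fun l => by
      rw [Matrix.of_apply, Matrix.of_apply, hab]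
  obtain ⟨J1, hJ1i, hJ1⟩ := exists_compl J0 hJ0i
  obtain ⟨Hf, hHf⟩ : ∃ Hf : (Fin (N + 1) → Fin (N + 1 + s)) →
      MvPolynomial (Fin (N + 1 + s)) ℂ, Hf = fun J => (Matrix.of fun ρ b =>
        kv (fun l c => pderiv c (G (T l))) (Fin.cons (J1 ρ) J0) (J b)).det := ⟨_, rfl⟩
  have hHom : ∀ J, (Hf J).IsHomogeneous (∑ _ρ : Fin (N + 1), ∑ l, (e (T l) - 1)) := by
    intro J
    rw [hHf]
    refine det_hom _ (fun _ => ∑ l, (e (T l) - 1)) fun ρ b => ?_
    rw [Matrix.of_apply]
    have h0 := kv_hom (fun (l : Fin s) (c : Fin (N + 1 + s)) => pderiv c (G (T l)))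
      (fun l => e (T l) - 1) (fun l b => (hG (T l)).pderiv) (Fin.cons (J1 ρ) J0) (J b)
    exact h0
  obtain ⟨Q, hQ⟩ := combF V hVi (fun ρ c => A c ρ) (fun ρ c => kv V (Fin.cons (J1 ρ) J0) c)
    hA.1 (fun ρ j => by rw [hV]; exact hA.2 (T j) ρ) (fun ρ j => kv_orth V _ j)
  have h2 : ∀ J : Fin (N + 1) → Fin (N + 1 + s),
      (Matrix.of fun ρ b => kv V (Fin.cons (J1 ρ) J0) (J b)).det =
        Q.det * (A.submatrix J id).det := by
    intro J
    have h3 : (Matrix.of fun ρ b => kv V (Fin.cons (J1 ρ) J0) (J b)) =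
        Q * (A.submatrix J id).transpose := by
      ext ρ b
      rw [Matrix.of_apply, hQ, Matrix.mul_apply]
      rfl
    rw [h3, Matrix.det_mul, Matrix.det_transpose]
  have h3 : (Matrix.of fun ρ b => kv V (Fin.cons (J1 ρ) J0) (J1 b)).det ≠ 0 := by
    have h4 : (Matrix.of fun ρ b => kv V (Fin.cons (J1 ρ) J0) (J1 b)) =
        Matrix.diagonal fun _ : Fin (N + 1) => (Matrix.of fun l b => V l (J0 b)).det := by
      ext ρ b
      rw [Matrix.of_apply, Matrix.diagonal_apply]
      unfold kv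
      rw [Fin.sum_univ_succ, Finset.sum_eq_zero (s := Finset.univ), add_zero]
      · by_cases hρ : ρ = b
        · rw [if_pos hρ, if_pos (by rw [Fin.cons_zero, hρ])]
          simp
        · rw [if_neg hρ, if_neg]
          rw [Fin.cons_zero]
          exact fun h => hρ (hJ1i h)
      · intro i _
        rw [if_neg]
        rw [Fin.cons_succ]
        exact hJ1 i b
    rw [h4, Matrix.det_diagonal]
    exact Finset.prod_ne_zero_iff.2 fun _ _ => hJ0
  have h4 : ∀ J, aeval x (Hf J) =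
      (Matrix.of fun ρ b => kv V (Fin.cons (J1 ρ) J0) (J b)).det := by
    intro J
    rw [hHf, AlgHom.map_det]
    congr 1
    ext ρ b
    have h5 := kv_map (aeval x : MvPolynomial (Fin (N + 1 + s)) ℂ →ₐ[ℂ] L).toRingHom
      (fun l c => pderiv c (G (T l))) (Fin.cons (J1 ρ) J0) (J b)
    rw [hV]
    exact h5
  have h5 := forms_height0 Hf hHom x hx0 ⟨J1, by rw [h4]; exact h3⟩
  have h6 : hgtP ℂ (fun J => aeval x (Hf J)) =
      hgtP ℂ (fun J : Fin (N + 1) → Fin (N + 1 + s) => (A.submatrix J id).det) := by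
    have h7 : (fun J => aeval x (Hf J)) = fun J => Q.det * (A.submatrix J id).det :=
      funext fun J => (h4 J).trans (h2 J)
    rw [h2] at h3
    rw [h7]
    exact hgtP_smul (left_ne_zero_of_mul h3) ⟨J1, right_ne_zero_of_mul h3⟩
  rw [h6] at h5
  have h7 : (0 : ℤ) ≤ hgtP ℂ x := hgtP_nonneg hx0
  have h8 : (∑ _ρ : Fin (N + 1), ∑ l, (e (T l) - 1)) ≤ (N + 1) * (s * δ) := by
    rw [Finset.sum_const, Finset.card_univ, Fintype.card_fin, smul_eq_mul]
    refine Nat.mul_le_mul_left _ ?_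
    refine (Finset.sum_le_card_nsmul Finset.univ (fun l => e (T l) - 1) δ
      (fun l _ => (Nat.sub_le _ _).trans (he _))).trans ?_
    rw [Finset.card_univ, Fintype.card_fin, smul_eq_mul]
  have h9 : ((∑ _ρ : Fin (N + 1), ∑ l, (e (T l) - 1) : ℕ) : ℤ) * hgtP ℂ x ≤
      ((N + 1) * (s * δ) : ℕ) * hgtP ℂ x :=
    mul_le_mul_of_nonneg_right (by exact_mod_cast h8) h7
  have h10 := h5.trans h9
  unfold canonicalHeight
  have h11 : (0 : ℤ) ≤ (N + 1) * height ℂ x := mul_nonneg (by positivity) h7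
  have h12 : height ℂ (fun J : Fin (N + 1) → Fin (N + 1 + s) => (A.submatrix J id).det) ≤
      ((N + 1) * (s * δ) : ℕ) * height ℂ x := h10
  linarith

end Pool.Agent.R849.FS
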